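import Pool.Agent.H30.AV.Targets3

/-!
# MP_70ba79_ag, board `avr_modules`, module VER
-/

set_option autoImplicit false

namespace Pool.Agent.H63.AV

open MvPolynomial SC Pool.Agent.H27.LV Pool.Agent.H30.AV

lemma dim_adjoin {k F : Type} [Field k] [Field F] [Algebra k F] {n r : ℕ} (y : Fin n → F)
    (hy : ∀ s : Fin (r + 1) → Fin n, ¬ AlgebraicIndependent k fun i => y (s i))
    (w : Fin (r + 1) → F) (hw : ∀ i, w i ∈ Algebra.adjoin k (Set.range y)) :
    ¬ AlgebraicIndependent k w := by
  intro hind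
  let A := Algebra.adjoin k (Set.range y)
  have halg : Algebra.IsAlgebraic (Algebra.adjoin k (((↑) : A → F) ⁻¹' (Set.range y))) A := by
    constructor
    intro z
    have hz : z ∈ Algebra.adjoin k (((↑) : A → F) ⁻¹' (Set.range y)) := by
      rw [Algebra.adjoin_adjoin_coe_preimage]
      exact Algebra.mem_top
    exact isAlgebraic_algebraMap
      (⟨z, hz⟩ : Algebra.adjoin k (((↑) : A → F) ⁻¹' (Set.range y)))
  obtain ⟨t, hts, ht⟩ := exists_isTranscendenceBasis_subset (R := k)
    (((↑) : A → F) ⁻¹' (Set.range y))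
  let w' : Fin (r + 1) → A := fun i => ⟨w i, hw i⟩
  have hw' : AlgebraicIndependent k w' := by
    refine AlgebraicIndependent.of_comp A.val ?_
    exact hind
  have h1 : Cardinal.mk (Fin (r + 1)) ≤ Cardinal.mk t := by
    rw [ht.cardinalMk_eq_trdeg]
    exact hw'.cardinalMk_le_trdeg
  rw [Cardinal.le_def] at h1
  obtain ⟨emb⟩ := h1
  have h2 : AlgebraicIndependent k fun i => ((emb i : t) : A) :=
    ht.1.comp emb emb.injective
  have h3 : AlgebraicIndependent k fun i => (((emb i : t) : A) : F) := by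
    have := h2.map' (f := A.val) Subtype.val_injective
    exact this
  have h4 : ∀ i, ∃ j, y j = (((emb i : t) : A) : F) := fun i => hts (emb i).2
  choose s hs using h4
  apply hy s
  have h5 : (fun i => y (s i)) = fun i => (((emb i : t) : A) : F) := funext hs
  rw [h5]
  exact h3

/-- the zero exponent -/
def zpol (n e : ℕ) : Pol n e := ⟨fun _ => 0, by simp⟩

/-- unit exponents -/
def upol (n e : ℕ) (he : 1 ≤ e) (j : Fin n) : Pol n e := ⟨Pi.single j 1, by
  rw [Finset.sum_pi_single']
  simp
  exact he⟩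

lemma exists_equiv (n e : ℕ) : ∃ (n' : ℕ) (ψ : Fin (n' + 1) ≃ Pol n e), ψ 0 = zpol n e := by
  have hpos : 0 < Fintype.card (Pol n e) := Fintype.card_pos_iff.2 ⟨zpol n e⟩
  obtain ⟨n', hn'⟩ : ∃ n', Fintype.card (Pol n e) = n' + 1 := ⟨_, (Nat.succ_pred_eq_of_pos hpos).symm⟩
  let ψ0 : Fin (n' + 1) ≃ Pol n e := (Fintype.equivFinOfCardEq hn').symm
  refine ⟨n', ψ0.trans (Equiv.swap (ψ0 0) (zpol n e)), ?_⟩
  simp

theorem pf_VER (hLNF : T_LNF) : T_VER := by
  intro k _ _ _ n r e q Q hr he hdim hq
  obtain ⟨n', ψ, hψ⟩ := exists_equiv n e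
  -- values of the monomials
  let mv : ∀ {F : Type} [Field F], (Fin n → F) → Fin n' → F :=
    fun {F} _ y j => ∏ i, y i ^ (ψ j.succ).1 i
  let Q' : Set (MvPolynomial (Fin n') k) := {g | ∀ (F : Type) [Field F] [Algebra k F]
    (y : Fin n → F), (∀ f ∈ Q, aeval y f = 0) → aeval (mv y) g = 0}
  have hidx : ∀ j : Fin n, ∃ m : Fin n', ψ m.succ = upol n e he j := by
    intro j
    have hne : ψ.symm (upol n e he j) ≠ 0 := by
      intro h0
      have h1 : upol n e he j = zpol n e := by
        rw [← hψ, ← h0, Equiv.apply_symm_apply]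
      have h2 := congrFun (congrArg Subtype.val h1) j
      simp [upol, zpol] at h2
    obtain ⟨m, hm⟩ := Fin.exists_succ_eq.2 hne
    exact ⟨m, by rw [hm, Equiv.apply_symm_apply]⟩
  choose idx hidx using hidx
  have hmvidx : ∀ {F : Type} [Field F] (y : Fin n → F) (j : Fin n), mv y (idx j) = y j := by
    intro F _ y j
    change ∏ i, y i ^ (ψ (idx j).succ).1 i = y j
    rw [hidx j, Finset.prod_eq_single j]
    · simp [upol]
    · intro b _ hb
      simp [upol, hb]
    · intro h
      exact absurd (Finset.mem_univ j) h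
  have hdim' : DimLE Q' r := by
    intro F _ _ z hz s
    let y : Fin n → F := fun j => z (idx j)
    have hy : ∀ f ∈ Q, aeval y f = 0 := by
      intro f hf
      have h1 : rename idx f ∈ Q' := by
        intro F' _ _ y' hy'
        rw [aeval_rename]
        have : mv y' ∘ idx = y' := funext fun j => hmvidx y' j
        rw [this]
        exact hy' f hf
      have h2 := hz _ h1
      rw [aeval_rename] at h2
      exact h2
    have hzm : ∀ m, z m = mv y m := by
      intro m
      have h1 : (X m - ∏ i, X (idx i) ^ (ψ m.succ).1 i : MvPolynomial (Fin n') k) ∈ Q' := by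
        intro F' _ _ y' hy'
        rw [map_sub, aeval_X, map_prod, sub_eq_zero]
        refine Finset.prod_congr rfl fun i _ => ?_
        rw [map_pow, aeval_X, hmvidx]
      have h2 := hz _ h1
      rw [map_sub, aeval_X, map_prod, sub_eq_zero] at h2
      rw [h2]
      refine Finset.prod_congr rfl fun i _ => ?_
      rw [map_pow, aeval_X]
    refine dim_adjoin y (hdim F y hy) (fun i => z (s i)) fun i => ?_
    rw [hzm]
    exact Subalgebra.prod_mem _ fun j _ =>
      Subalgebra.pow_mem _ (Algebra.subset_adjoin (Set.mem_range_self j)) _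
  obtain ⟨Δ, B, hΔ, hB⟩ := hLNF k n' r q Q' hr hdim' hq
  refine ⟨rename (Prod.map id ψ) Δ, B, ?_, ?_⟩
  · intro h0
    apply hΔ
    have hinj : Function.Injective (Prod.map (id : Fin q → Fin q) ψ) :=
      Function.injective_id.prodMap ψ.injective
    apply rename_injective _ hinj
    rw [h0, map_zero]
  intro a ha μ hμ K _ _ _ htr S z hP hreg hnc hh D hD
  have ha' : eval (fun p : Fin q × Fin (n' + 1) => (fun i j => a i (ψ j)) p.1 p.2) Δ ≠ 0 := by
    intro h0
    apply ha
    rw [eval_rename]
    exact h0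
  let y : Fin n → K := fun j => z (Sum.inl j)
  let x : Fin q → K := fun i => z (Sum.inr i)
  have hyQ : ∀ f ∈ Q, aeval y f = 0 := by
    intro f hf
    have h1 := hP _ (Or.inl ⟨f, hf, rfl⟩)
    rw [aeval_rename] at h1
    exact h1
  let z' : Fin n' ⊕ Fin q → K := Sum.elim (mv y) x
  have hmain := hB (fun i j => a i (ψ j)) ha' μ hμ K htr S z' ?_ ?_ ?_ ?_ D hD
  · refine le_trans ?_ hmain
    have hpo : ∀ v : DV k K, poleOrder v z ≤ poleOrder v z' := by
      intro v
      unfold poleOrder
      refine Finset.sup_le fun i _ => ?_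
      rcases i with j | i
      · have h1 : z (Sum.inl j) = z' (Sum.inl (idx j)) := (hmvidx y j).symm
        rw [h1]
        exact Finset.le_sup (f := fun i => (-(v.ord (z' i))).toNat) (Finset.mem_univ _)
      · have h1 : z (Sum.inr i) = z' (Sum.inr i) := rfl
        rw [h1]
        exact Finset.le_sup (f := fun i => (-(v.ord (z' i))).toNat) (Finset.mem_univ _)
    have h2 : deg k z ≤ deg k z' := by
      unfold deg
      exact finsum_le_finsum' (pfi k K htr _ z) (pfi k K htr _ z') hpo
    exact_mod_cast h2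
  · rintro p (⟨g, hg, rfl⟩ | ⟨i, rfl⟩)
    · rw [aeval_rename]
      exact hg K y hyQ
    · have h1 := hP _ (Or.inr ⟨i, rfl⟩)
      simp only [map_sub, map_pow, aeval_X, map_sum, map_mul, aeval_C, map_prod] at h1
      simp only [map_sub, map_pow, aeval_X, map_add, map_sum, map_mul, aeval_C]
      have h2 : ∑ M : Pol n e, algebraMap k K (a i M) * ∏ j, z (Sum.inl j) ^ M.1 j =
          ∑ j : Fin (n' + 1), algebraMap k K (a i (ψ j)) * ∏ l, z (Sum.inl l) ^ (ψ j).1 l :=
        (Equiv.sum_comp ψ fun M => algebraMap k K (a i M) * ∏ j, z (Sum.inl j) ^ M.1 j).symm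
      rw [h2, Fin.sum_univ_succ] at h1
      have h3 : ∏ l, z (Sum.inl l) ^ (ψ 0).1 l = 1 := by
        rw [hψ]
        simp [zpol]
      rw [h3, mul_one] at h1
      exact h1
  · intro v hv j
    rcases j with j | i
    · exact DV.ord_prod_nonneg v _ _ fun i _ => DV.ord_pow_nonneg v (hreg v hv (Sum.inl i)) _
    · exact hreg v hv (Sum.inr i)
  · obtain ⟨j, hj⟩ := hnc
    rcases j with j | i
    · refine ⟨Sum.inl (idx j), ?_⟩
      have h1 : z' (Sum.inl (idx j)) = z (Sum.inl j) := hmvidx y j
      rw [h1]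
      exact hj
    · exact ⟨Sum.inr i, hj⟩
  · rw [map_prod] at hh ⊢
    simp only [aeval_X] at hh ⊢
    exact hh

end Pool.Agent.H63.AV
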