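import Pool.Agent.H30.AV.Targets

/-!
# MP_70ba79_ag, board `avr_modules`, module PEO
-/

set_option autoImplicit false

namespace Pool.Agent.H63.AV

open MvPolynomial SC Pool.Agent.H27.LV Pool.Agent.H30.AV

lemma card_mon_le (b m m' : ℕ) (h : m ≤ m') :
    Fintype.card (Mon (b + 1) m) ≤ Fintype.card (Mon (b + 1) m') := by
  refine Fintype.card_le_of_injective
    (fun f => ⟨fun i => f.1 i + if i = 0 then m' - m else 0, ?_⟩) ?_
  · rw [Finset.sum_add_distrib, f.2]
    simp
    omega
  · intro f g hfg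
    apply Subtype.ext
    funext i
    have := congrFun (congrArg Subtype.val hfg) i
    simpa using this

lemma cnt_mono (b M M' w : ℕ) (hM : M ≤ M') (hw : w ≤ M) : cnt b M w ≤ cnt b M' w := by
  unfold cnt
  apply Finset.sum_le_sum
  intro j hj
  have hj' : j < w := Finset.mem_range.1 hj
  rw [if_pos (by omega), if_pos (by omega)]
  apply Nat.mul_le_mul_left
  rcases b with _ | b
  · have : IsEmpty (Mon 0 (M - j)) := ⟨fun f => by
      have := f.2
      simp at this
      omega⟩
    simp [Fintype.card_eq_zero]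
  · exact card_mon_le _ _ _ (by omega)

lemma exists_X_notMem {L τ : Type} [Field L] (P : Ideal (MvPolynomial τ L))
    (β : ℕ) (htr : Algebra.trdeg L (MvPolynomial τ L ⧸ P) = (β + 2 : ℕ)) :
    ∃ x, X x ∉ P := by
  by_contra hall
  push Not at hall
  have hsurj : Function.Surjective (algebraMap L (MvPolynomial τ L ⧸ P)) := by
    intro z
    obtain ⟨f, rfl⟩ := Ideal.Quotient.mk_surjective z
    induction f using MvPolynomial.induction_on with
    | C a => exact ⟨a, rfl⟩
    | add f g hf hg =>
      obtain ⟨a, ha⟩ := hf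
      obtain ⟨b, hb⟩ := hg
      exact ⟨a + b, by rw [map_add, map_add, ha, hb]⟩
    | mul_X f x _ =>
      refine ⟨0, ?_⟩
      rw [map_zero]
      symm
      rw [Ideal.Quotient.eq_zero_iff_mem]
      exact P.mul_mem_left _ (hall x)
  have halg : Algebra.IsAlgebraic L (MvPolynomial τ L ⧸ P) := by
    constructor
    intro z
    obtain ⟨a, rfl⟩ := hsurj z
    exact isAlgebraic_algebraMap a
  have h0 : Algebra.trdeg L (MvPolynomial τ L ⧸ P) = 0 := trdeg_eq_zero
  rw [h0] at htr
  have : ((β + 2 : ℕ) : Cardinal) ≠ 0 := by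
    exact_mod_cast Nat.succ_ne_zero (β + 1)
  exact this htr.symm

theorem pf_PEO (hCOD : T_COD) (hNUX : T_NUX) : T_PEO := by
  intro L τ _ _ _ r β q P T T' hr hβ hq hP hPh htr hT hT' hQ
  choose d d' c g hd hgh hgP hφ hE using fun i => hCOD L τ β P (T i) (T' i) hP hPh htr (hT i)
    (hT' i) (hQ i)
  obtain ⟨x, hx⟩ := exists_X_notMem P β htr
  obtain ⟨N, w, hwN, hcnt, hineq⟩ := hNUX r β q (∑ i, c i) (∑ i, d' i) hr hβ hq
  have hq0 : 0 < q := by
    rcases Nat.eq_zero_or_pos q with h | h
    · subst h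
      omega
    · exact h
  have hw : 0 < w := by
    rcases Nat.eq_zero_or_pos w with h | h
    · subst h
      omega
    · exact h
  have : Nonempty (Fin q) := ⟨⟨0, hq0⟩⟩
  have hc : ∀ i, c i ≤ ∑ i, c i := fun i =>
    Finset.single_le_sum (f := c) (fun _ _ => Nat.zero_le _) (Finset.mem_univ i)
  have hd'le : ∀ i, d' i ≤ ∑ i, d' i := fun i =>
    Finset.single_le_sum (f := d') (fun _ _ => Nat.zero_le _) (Finset.mem_univ i)
  obtain ⟨i0, -, hi0⟩ := Finset.exists_max_image (Finset.univ : Finset (Fin q)) d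
    Finset.univ_nonempty
  choose φ hφ' using fun i => hφ i N w (by have := hd'le i; omega)
  obtain ⟨E, hEh, hEi⟩ := hE i0 N (by have := hd'le i0; omega)
  -- the linear map
  let comb : (Fin (d i0 * Fintype.card (Mon (β + 2) (N - d' i0))) → L) →ₗ[L] MvPolynomial τ L :=
    { toFun := fun l => ∑ j, C (l j) * E j
      map_add' := fun l l' => by
        simp only [Pi.add_apply, map_add, add_mul, Finset.sum_add_distrib]
      map_smul' := fun a l => by
        simp only [Pi.smul_apply, smul_eq_mul, map_mul, RingHom.id_apply, Finset.smul_sum,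
          MvPolynomial.smul_eq_C_mul, mul_assoc] }
  let Ψ : (Fin (d i0 * Fintype.card (Mon (β + 2) (N - d' i0))) → L) →ₗ[L]
      (∀ i, Fin (d i * cnt β (N + c i) w) → L) := LinearMap.pi fun i => (φ i).comp comb
  have hrank : Module.finrank L (∀ i, Fin (d i * cnt β (N + c i) w) → L) <
      Module.finrank L (Fin (d i0 * Fintype.card (Mon (β + 2) (N - d' i0))) → L) := by
    rw [Module.finrank_pi_fintype, Module.finrank_fin_fun]
    simp only [Module.finrank_fin_fun]
    have h1 : ∀ i ∈ (Finset.univ : Finset (Fin q)), d i * cnt β (N + c i) w ≤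
        d i0 * cnt β (N + ∑ i, c i) w := by
      intro i hi
      exact Nat.mul_le_mul (hi0 i hi) (cnt_mono _ _ _ _ (by have := hc i; omega) (by omega))
    have h2 := Finset.sum_le_sum h1
    rw [Finset.sum_const, Finset.card_univ, Fintype.card_fin, smul_eq_mul] at h2
    have h3 : Fintype.card (Mon (β + 2) (N - ∑ i, d' i)) ≤
        Fintype.card (Mon (β + 2) (N - d' i0)) :=
      card_mon_le (β + 1) _ _ (by have := hd'le i0; omega)
    calc ∑ i, d i * cnt β (N + c i) w ≤ q * (d i0 * cnt β (N + ∑ i, c i) w) := h2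
      _ = d i0 * (q * cnt β (N + ∑ i, c i) w) := by ring
      _ < d i0 * Fintype.card (Mon (β + 2) (N - ∑ i, d' i)) :=
          Nat.mul_lt_mul_of_pos_left hcnt (hd i0)
      _ ≤ d i0 * Fintype.card (Mon (β + 2) (N - d' i0)) := Nat.mul_le_mul_left _ h3
  have hker := LinearMap.ker_ne_bot_of_finrank_lt (f := Ψ) hrank
  obtain ⟨l, hl, hl0⟩ := Submodule.exists_mem_ne_zero_of_ne_bot hker
  have hl' : ∀ i, φ i (comb l) = 0 := by
    intro i
    have := congrFun (LinearMap.mem_ker.1 hl) i
    simpa [Ψ] using this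
  have hcombl : comb l = ∑ j, C (l j) * E j := rfl
  have hGh : (comb l).IsHomogeneous N := by
    rw [hcombl]
    apply IsHomogeneous.sum
    intro j _
    have := (isHomogeneous_C τ (l j)).mul (hEh j)
    simpa using this
  refine ⟨N, w, ∑ i, c i, comb l, fun i => X x ^ (∑ i, c i - c i) * g i, by omega, hineq,
    hGh, ?_, ?_⟩
  · intro hmem
    exact hl0 (hEi l (by rw [← hcombl]; exact hmem))
  · intro i
    refine ⟨?_, ?_, ?_⟩
    · have := ((isHomogeneous_X L x).pow (∑ i, c i - c i)).mul (hgh i)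
      have h2 : 1 * (∑ i, c i - c i) + c i = ∑ i, c i := by have := hc i; omega
      rw [h2] at this
      exact this
    · intro hmem
      rcases hP.mem_or_mem hmem with h | h
      · exact hx (hP.mem_of_pow_mem _ h)
      · exact hgP i h
    · rw [mul_assoc]
      exact Ideal.mul_mem_left _ _ (hφ' i _ hGh (hl' i))

end Pool.Agent.H63.AV
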